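import Pool.Agent.Lib.MP_688fd0_co.LIN.H91.Count
import Pool.Agent.Lib.MP_688fd0_co.LIN.Defs

/-!
START for regular graphs of large degree: cycle families with potential at least `(1 - ε) n`.
-/

set_option autoImplicit false

namespace Pool.Agent.Lib.MP_688fd0_co.LIN.H91

open Classical

universe u

section
variable {V : Type u} [Fintype V]

/-- the long cycles (at least 3 vertices) of a permutation, as a graph -/
def gr (σ : Equiv.Perm V) : SimpleGraph V where
  Adj a b := a ≠ b ∧ (σ a = b ∨ σ b = a) ∧ σ (σ a) ≠ a ∧ σ (σ b) ≠ b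
  symm := ⟨fun _ _ h => ⟨h.1.symm, h.2.1.symm, h.2.2.2, h.2.2.1⟩⟩
  loopless := ⟨fun _ h => h.1 rfl⟩

theorem gr_cf {G : SimpleGraph V} {σ : Equiv.Perm V} (h : ∀ v, G.Adj v (σ v)) : CF G (gr σ) := by
  refine ⟨?_, ?_⟩
  · intro a b hab
    rcases hab.2.1 with h1 | h1
    · rw [← h1]; exact h a
    · rw [← h1]; exact (h b).symm
  · intro v
    by_cases hv : σ (σ v) = v
    · left
      unfold dg
      rw [Finset.card_eq_zero, Finset.filter_eq_empty_iff]
      intro w _ hw
      exact hw.2.2.1 hv
    · right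
      have h1 : Finset.univ.filter (fun w => (gr σ).Adj v w) = {σ v, σ.symm v} := by
        ext w
        simp only [Finset.mem_filter, Finset.mem_univ, true_and, Finset.mem_insert, Finset.mem_singleton]
        constructor
        · intro hw
          rcases hw.2.1 with h2 | h2
          · left; exact h2.symm
          · right; rw [← h2]; simp
        · rintro (rfl | rfl)
          · exact ⟨(h v).ne, Or.inl rfl, hv, fun h2 => hv (σ.injective h2)⟩
          · refine ⟨?_, Or.inr (by simp), hv, ?_⟩
            · intro h2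
              have h3 := h (σ.symm v)
              rw [Equiv.apply_symm_apply, ← h2] at h3
              exact h3.ne rfl
            · rw [Equiv.apply_symm_apply]
              intro h2
              apply hv
              have := congrArg σ h2
              simpa using this
      unfold dg
      rw [h1, Finset.card_pair]
      intro h2
      apply hv
      have := congrArg σ h2
      simpa using this

theorem mem_cov_gr {G : SimpleGraph V} {σ : Equiv.Perm V} (h : ∀ v, G.Adj v (σ v)) (v : V) :
    v ∈ cov (gr σ) ↔ σ (σ v) ≠ v := by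
  unfold cov
  rw [Finset.mem_filter]
  constructor
  · rintro ⟨_, w, hw⟩
    exact hw.2.2.1
  · intro hv
    exact ⟨Finset.mem_univ _, σ v, (h v).ne, Or.inl rfl, hv, fun h2 => hv (σ.injective h2)⟩

omit [Fintype V] in
theorem reach_pow {G : SimpleGraph V} {σ : Equiv.Perm V} (h : ∀ v, G.Adj v (σ v)) {v : V} (hv : σ (σ v) ≠ v) (i : ℕ) :
    (gr σ).Reachable v ((σ ^ i) v) ∧ σ (σ ((σ ^ i) v)) ≠ (σ ^ i) v := by
  induction i with
  | zero => exact ⟨by simp, by simpa using hv⟩
  | succ i ih =>
    obtain ⟨h1, h2⟩ := ih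
    have h3 : (σ ^ (i + 1)) v = σ ((σ ^ i) v) := by rw [pow_succ', Equiv.Perm.mul_apply]
    have h4 : σ (σ (σ ((σ ^ i) v))) ≠ σ ((σ ^ i) v) := fun h5 => h2 (σ.injective h5)
    rw [h3]
    refine ⟨h1.trans (SimpleGraph.Adj.reachable ?_), h4⟩
    exact ⟨(h _).ne, Or.inl rfl, h2, h4⟩

theorem reach_same {G : SimpleGraph V} {σ : Equiv.Perm V} (h : ∀ v, G.Adj v (σ v)) {v w : V} (hv : σ (σ v) ≠ v)
    (hvw : σ.SameCycle v w) : (gr σ).Reachable v w := by
  obtain ⟨i, _, hi⟩ := hvw.exists_pow_eq'
  rw [← hi]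
  exact (reach_pow h hv i).1

theorem gr_phi {G : SimpleGraph V} {σ : Equiv.Perm V} (h : ∀ v, G.Adj v (σ v)) (l j : ℕ)
    (hj : ∀ Z : Finset V, Tr σ Z → Z.card < j) :
    (Fintype.card V : ℤ) - (l + 2) * ((j : ℤ) - 1) ≤ phi l (gr σ) := by
  -- representatives
  let s : Setoid V := ⟨σ.SameCycle, ⟨fun x => Equiv.Perm.SameCycle.refl σ x, fun h => h.symm, fun h h' => h.trans h'⟩⟩
  let rep : V → V := fun v => (Quotient.mk s v).out
  have hrep : ∀ v, σ.SameCycle (rep v) v := fun v => Quotient.exact (Quotient.out_eq (Quotient.mk s v))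
  have hrep2 : ∀ v w, σ.SameCycle v w → rep v = rep w := by
    intro v w hvw
    have : Quotient.mk s v = Quotient.mk s w := Quotient.sound hvw
    simp only [rep, this]
  set T : Finset V := Finset.univ.image rep with hT
  have hTr : Tr σ T := by
    intro a ha b hb hab hs
    obtain ⟨v, _, rfl⟩ := Finset.mem_image.1 ha
    obtain ⟨w, _, rfl⟩ := Finset.mem_image.1 hb
    exact hab (hrep2 v w ((hrep v).symm.trans (hs.trans (hrep w))))
  have hTj := hj T hTr
  -- number of cycles
  have hn : ncyc (gr σ) ≤ T.card := by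
    unfold ncyc
    rcases isEmpty_or_nonempty V with hE | hE
    · have h2 : cov (gr σ) = ∅ := Finset.eq_empty_of_isEmpty _
      unfold cycs
      rw [h2]
      simp
    have h1 : ∀ c ∈ cycs (gr σ), ∃ v, σ (σ v) ≠ v ∧ cyc (gr σ) v = c := by
      intro c hc
      obtain ⟨v, hv, hvc⟩ := Finset.mem_image.1 hc
      exact ⟨v, (mem_cov_gr h v).1 hv, hvc⟩
    choose! f hf1 hf2 using h1
    refine Finset.card_le_card_of_injOn (fun c => rep (f c)) ?_ ?_
    · intro c _
      exact Finset.mem_coe.2 (Finset.mem_image_of_mem _ (Finset.mem_univ _))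
    · intro c hc c' hc' heq
      have h2 : σ.SameCycle (f c) (f c') := by
        have h3 := (hrep (f c)).symm
        rw [show rep (f c) = rep (f c') from heq] at h3
        exact h3.trans (hrep (f c'))
      have h3 := reach_same h (hf1 c hc) h2
      rw [← hf2 c hc, ← hf2 c' hc']
      unfold cyc
      ext w
      simp only [Finset.mem_filter, Finset.mem_univ, true_and]
      exact ⟨fun h4 => h3.symm.trans h4, fun h4 => h3.trans h4⟩
  -- uncovered vertices
  have hU : Fintype.card V ≤ (cov (gr σ)).card + 2 * T.card := by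
    have h1 : (cov (gr σ))ᶜ.card ≤ 2 * T.card := by
      have h2 : ((cov (gr σ))ᶜ.image rep).card ≤ T.card :=
        Finset.card_le_card (Finset.image_subset_image (Finset.subset_univ _))
      refine le_trans (Finset.card_le_mul_card_image _ 2 ?_) (Nat.mul_le_mul_left 2 h2)
      intro t _
      refine le_trans (Finset.card_le_card (t := ({t, σ t} : Finset V)) ?_) Finset.card_le_two
      intro v hv
      rw [Finset.mem_filter, Finset.mem_compl, mem_cov_gr h, not_not] at hv
      obtain ⟨hv1, hv2⟩ := hv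
      obtain ⟨i, _, hi⟩ := (hrep v).symm.exists_pow_eq'
      rw [hv2] at hi
      have h3 : ∀ i : ℕ, (σ ^ i) v = v ∨ (σ ^ i) v = σ v := by
        intro i
        induction i with
        | zero => left; simp
        | succ i ih =>
          rw [pow_succ', Equiv.Perm.mul_apply]
          rcases ih with ih | ih
          · right; rw [ih]
          · left; rw [ih, hv1]
      rw [Finset.mem_insert, Finset.mem_singleton]
      rcases h3 i with h4 | h4
      · left; rw [← hi, h4]
      · right; rw [← hi, h4, hv1]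
    have h2 := Finset.card_compl (cov (gr σ))
    have h3 : (cov (gr σ)).card ≤ Fintype.card V := Finset.card_le_univ _
    omega
  unfold phi
  have h1 : (l : ℤ) * ncyc (gr σ) ≤ l * T.card := by
    have : (ncyc (gr σ) : ℤ) ≤ T.card := by exact_mod_cast hn
    exact mul_le_mul_of_nonneg_left this (by positivity)
  have h2 : (Fintype.card V : ℤ) ≤ (cov (gr σ)).card + 2 * T.card := by exact_mod_cast hU
  have h3 : (T.card : ℤ) ≤ (j : ℤ) - 1 := by
    have : (T.card : ℤ) < j := by exact_mod_cast hTj
    omega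
  have h4 : ((l : ℤ) + 2) * T.card ≤ (l + 2) * ((j : ℤ) - 1) := mul_le_mul_of_nonneg_left h3 (by positivity)
  linarith

end

/-- START*: every regular graph of large degree has a cycle family with potential at least `(1 - ε) n`. -/
theorem start3 : ∀ (ε : ℝ), 0 < ε → ∀ l : ℕ, ∃ d0 : ℕ, ∀ (V : Type u) [Fintype V] (G : SimpleGraph V) (d : ℕ),
    (∀ v, dg G v = d) → d0 ≤ d → Rat G l (1 - ε) := by
  intro ε hε l
  set η : ℝ := ε / (l + 2) with hη
  have hη0 : 0 < η := by positivity
  obtain ⟨d0, hd0⟩ := exists_nat_gt ((2 * Real.exp 1) ^ (η⁻¹))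
  refine ⟨d0 + 1, ?_⟩
  intro V _ G d hdeg hd
  by_cases hV : Fintype.card V = 0
  · refine ⟨⊥, ⟨bot_le, fun v => ?_⟩, ?_⟩
    · left
      unfold dg
      simp
    · have h1 : IsEmpty V := Fintype.card_eq_zero_iff.1 hV
      have h2 : cov (⊥ : SimpleGraph V) = ∅ := Finset.eq_empty_of_isEmpty _
      unfold phi ncyc cycs
      rw [h2, hV]
      simp
  have hn : (0 : ℝ) < Fintype.card V := by
    have : 0 < Fintype.card V := Nat.pos_of_ne_zero hV
    exact_mod_cast this
  have hdR : (2 * Real.exp 1) ^ (η⁻¹) < (d : ℝ) := by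
    refine hd0.trans ?_
    have : d0 < d := by omega
    exact_mod_cast this
  have h2e : (1 : ℝ) < 2 * Real.exp 1 := by
    have := Real.add_one_le_exp (1 : ℝ)
    linarith
  have hd1 : 1 ≤ d := by omega
  have hd1R : (1 : ℝ) ≤ d := by exact_mod_cast hd1
  set j : ℕ := ⌈η * Fintype.card V⌉₊ with hj
  have hj1 : η * Fintype.card V ≤ j := Nat.le_ceil _
  have hj2 : (j : ℝ) < η * Fintype.card V + 1 := Nat.ceil_lt_add_one (by positivity)
  have hlt : (2 * Real.exp 1) ^ Fintype.card V < (d : ℝ) ^ j := by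
    have h1 : (2 * Real.exp 1) < (d : ℝ) ^ η := by
      have h3 := Real.rpow_lt_rpow (by positivity) hdR hη0
      rwa [← Real.rpow_mul (by positivity), inv_mul_cancel₀ hη0.ne', Real.rpow_one] at h3
    calc (2 * Real.exp 1) ^ Fintype.card V < ((d : ℝ) ^ η) ^ Fintype.card V :=
          pow_lt_pow_left₀ h1 (by positivity) hV
      _ = (d : ℝ) ^ (η * Fintype.card V) := by
          rw [← Real.rpow_natCast, ← Real.rpow_mul (by positivity)]
      _ ≤ (d : ℝ) ^ (j : ℝ) := Real.rpow_le_rpow_of_exponent_le hd1R hj1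
      _ = (d : ℝ) ^ j := Real.rpow_natCast _ _
  obtain ⟨σ, hσ, hZ⟩ := few_cycles (fun v => Finset.univ.filter (fun w => G.Adj v w)) d hd1
    (fun v => hdeg v) (fun w => by
      rw [← hdeg w]
      unfold dg
      congr 1
      ext v
      simp [G.adj_comm]) j hlt
  have hadj : ∀ v, G.Adj v (σ v) := fun v => by simpa using hσ v
  refine ⟨gr σ, gr_cf hadj, ?_⟩
  have h1 := gr_phi hadj l j hZ
  have h2 : ((Fintype.card V : ℝ)) - (l + 2) * ((j : ℝ) - 1) ≤ ((phi l (gr σ) : ℤ) : ℝ) := by exact_mod_cast h1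
  refine le_trans ?_ h2
  have h3 : ((l : ℝ) + 2) * ((j : ℝ) - 1) ≤ (l + 2) * (η * Fintype.card V) := by
    apply mul_le_mul_of_nonneg_left _ (by positivity)
    linarith
  have h4 : ((l : ℝ) + 2) * (η * Fintype.card V) = ε * Fintype.card V := by
    rw [hη]; field_simp
  linarith

end Pool.Agent.Lib.MP_688fd0_co.LIN.H91
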