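import Mathlib

/-!
Capacity lower bound (Gurvits) for the number of permutations supported on a regular bipartite graph.
-/

set_option autoImplicit false

namespace Pool.Agent.Lib.MP_688fd0_co.LIN.H91

open MvPolynomial

/-- complex evaluation of a real polynomial -/
noncomputable def ev {n : ℕ} (p : MvPolynomial (Fin n) ℝ) (z : Fin n → ℂ) : ℂ :=
  eval z (map (algebraMap ℝ ℂ) p)

theorem ev_ofReal {n : ℕ} (p : MvPolynomial (Fin n) ℝ) (x : Fin n → ℝ) :
    ev p (fun i => (x i : ℂ)) = ((eval x p : ℝ) : ℂ) := by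
  unfold ev
  rw [eval_map]
  exact (eval₂_comp (algebraMap ℝ ℂ) x p).symm

theorem ev_smul {n N : ℕ} {p : MvPolynomial (Fin n) ℝ} (hp : p.IsHomogeneous N) (s : ℂ) (z : Fin n → ℂ) :
    ev p (fun i => s * z i) = s ^ N * ev p z := by
  unfold ev
  have hp' : (map (algebraMap ℝ ℂ) p).IsHomogeneous N := hp.map _
  rw [eval_eq, eval_eq, Finset.mul_sum]
  refine Finset.sum_congr rfl (fun d hd => ?_)
  have h1 : ∑ i ∈ d.support, d i = N := by
    have := hp' (mem_support_iff.1 hd)
    simpa [Finsupp.weight_apply, Finsupp.sum] using this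
  simp only [mul_pow]
  rw [Finset.prod_mul_distrib, Finset.prod_pow_eq_pow_sum, h1]
  ring

theorem ev_cons {n : ℕ} (p : MvPolynomial (Fin (n + 1)) ℝ) (y : Fin n → ℂ) (t : ℂ) :
    ev p (Fin.cons t y) = Polynomial.eval t (Polynomial.map (eval y) (finSuccEquiv ℂ n (map (algebraMap ℝ ℂ) p))) := by
  unfold ev
  exact eval_eq_eval_mv_eval' y t _

theorem ev_coeff {n : ℕ} (p : MvPolynomial (Fin (n + 1)) ℝ) (y : Fin n → ℂ) (i : ℕ) :
    (Polynomial.map (eval y) (finSuccEquiv ℂ n (map (algebraMap ℝ ℂ) p))).coeff i =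
      ev ((finSuccEquiv ℝ n p).coeff i) y := by
  unfold ev
  rw [Polynomial.coeff_map]
  congr 1
  ext m
  rw [finSuccEquiv_coeff_coeff, coeff_map, coeff_map, finSuccEquiv_coeff_coeff]

theorem ms_bound (R : Multiset ℂ) (hR : ∀ r ∈ R, r.re = 0) (s : ℝ) (hs : 1 ≤ s) :
    ‖(R.map (fun r => (s : ℂ) - r)).prod‖ ≤ s ^ (Multiset.card R) * ‖(R.map (fun r => (1 : ℂ) - r)).prod‖ := by
  induction R using Multiset.induction_on with
  | empty => simp
  | cons a R ih =>
    have h1 := ih (fun r hr => hR r (Multiset.mem_cons_of_mem hr))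
    have h2 : ‖(s : ℂ) - a‖ ≤ s * ‖(1 : ℂ) - a‖ := by
      have ha : a.re = 0 := hR a (Multiset.mem_cons_self _ _)
      have h3 : 0 ≤ s * ‖(1 : ℂ) - a‖ := by positivity
      refine abs_le_of_sq_le_sq' ?_ h3 |>.2
      rw [mul_pow, Complex.sq_norm, Complex.sq_norm, Complex.normSq_apply, Complex.normSq_apply]
      simp only [Complex.sub_re, Complex.ofReal_re, Complex.sub_im, Complex.ofReal_im, Complex.one_re, Complex.one_im, ha]
      nlinarith [mul_self_nonneg a.im, mul_nonneg (mul_self_nonneg a.im) (by nlinarith : (0 : ℝ) ≤ s ^ 2 - 1)]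
    simp only [Multiset.map_cons, Multiset.prod_cons, Multiset.card_cons, norm_mul]
    calc ‖(s : ℂ) - a‖ * ‖(R.map (fun r => (s : ℂ) - r)).prod‖
        ≤ (s * ‖(1 : ℂ) - a‖) * (s ^ (Multiset.card R) * ‖(R.map (fun r => (1 : ℂ) - r)).prod‖) := by gcongr
      _ = _ := by ring

/-- H-stable homogeneous polynomials with nonnegative coefficients and capacity at least `c` -/
structure Good (n : ℕ) (p : MvPolynomial (Fin n) ℝ) (c : ℝ) : Prop where
  nonneg : ∀ m, 0 ≤ p.coeff m
  hom : p.IsHomogeneous n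
  stab : ∀ z : Fin n → ℂ, (∀ i, 0 < (z i).re) → ev p z ≠ 0
  cap : ∀ x : Fin n → ℝ, (∀ i, 0 < x i) → c * ∏ i, x i ≤ eval x p

theorem ev_continuous {n : ℕ} (p : MvPolynomial (Fin n) ℝ) : Continuous (ev p) := by
  unfold ev
  exact MvPolynomial.continuous_eval _

/-- `|p(z)| ≥ p(Re z)` -/
theorem re_le {n : ℕ} {p : MvPolynomial (Fin n) ℝ} {c : ℝ} (h : Good n p c) (z : Fin n → ℂ)
    (hz : ∀ i, 0 < (z i).re) : eval (fun i => (z i).re) p ≤ ‖ev p z‖ := by
  set f : Polynomial ℂ := aeval (fun i => Polynomial.C ((z i).re : ℂ) * Polynomial.X + Polynomial.C (Complex.I * (z i).im))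
    (map (algebraMap ℝ ℂ) p) with hf
  have hev : ∀ s : ℂ, f.eval s = ev p (fun i => ((z i).re : ℂ) * s + Complex.I * (z i).im) := by
    intro s
    rw [hf]
    unfold ev
    rw [← Polynomial.coe_aeval_eq_eval, MvPolynomial.comp_aeval_apply, ← MvPolynomial.coe_aeval_eq_eval]
    simp only [RingHom.coe_coe]
    congr 2
    ext i
    simp
  have hdeg : f.natDegree ≤ n := by
    have h0 : (map (algebraMap ℝ ℂ) p).totalDegree ≤ n := (h.hom.map _).totalDegree_le
    have h2 : ∀ i, (Polynomial.C ((z i).re : ℂ) * Polynomial.X + Polynomial.C (Complex.I * (z i).im)).natDegree ≤ 1 :=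
      fun i => Polynomial.natDegree_linear_le
    have h3 := aeval_natDegree_le (n := 1) (map (algebraMap ℝ ℂ) p) h0 _ h2
    rw [mul_one] at h3
    exact h3
  have hroot : ∀ r ∈ f.roots, r.re = 0 := by
    intro r hr
    have hr0 : f.eval r = 0 := (Polynomial.mem_roots'.1 hr).2
    rw [hev] at hr0
    by_contra hne
    rcases lt_or_gt_of_ne hne with hlt | hgt
    · have h1 := ev_smul h.hom (-1) (fun i => ((z i).re : ℂ) * r + Complex.I * (z i).im)
      rw [hr0, mul_zero] at h1
      refine h.stab _ ?_ h1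
      intro i
      have := hz i
      simp
      nlinarith
    · refine h.stab _ ?_ hr0
      intro i
      have := hz i
      simp
      positivity
  have hz1 : f.eval 1 = ev p z := by
    rw [hev]
    congr 1
    ext i
    rw [mul_one, mul_comm]
    exact Complex.re_add_im (z i)
  have hbound : ∀ s : ℝ, 1 ≤ s → ‖f.eval (s : ℂ)‖ ≤ s ^ n * ‖ev p z‖ := by
    intro s hs
    have hsp : f.Splits := IsAlgClosed.splits f
    rw [← hz1, hsp.eval_eq_prod_roots, hsp.eval_eq_prod_roots, norm_mul, norm_mul]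
    have h1 := ms_bound f.roots hroot s hs
    have h2 : Multiset.card f.roots ≤ n := (Polynomial.card_roots' f).trans hdeg
    have h3 : s ^ (Multiset.card f.roots) ≤ s ^ n := pow_le_pow_right₀ hs h2
    calc ‖f.leadingCoeff‖ * ‖(f.roots.map (fun r => (s : ℂ) - r)).prod‖
        ≤ ‖f.leadingCoeff‖ * (s ^ (Multiset.card f.roots) * ‖(f.roots.map (fun r => (1 : ℂ) - r)).prod‖) := by gcongr
      _ ≤ ‖f.leadingCoeff‖ * (s ^ n * ‖(f.roots.map (fun r => (1 : ℂ) - r)).prod‖) := by gcongr
      _ = _ := by ring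
  have hbound2 : ∀ s : ℝ, 1 ≤ s → ‖ev p (fun i => ((z i).re : ℂ) + Complex.I * (z i).im * ((s⁻¹ : ℝ) : ℂ))‖ ≤ ‖ev p z‖ := by
    intro s hs
    have hs0 : (0 : ℝ) < s := by linarith
    have h1 := hbound s hs
    rw [hev] at h1
    have h2 : (fun i => ((z i).re : ℂ) * (s : ℂ) + Complex.I * (z i).im) =
        fun i => (s : ℂ) * (((z i).re : ℂ) + Complex.I * (z i).im * ((s⁻¹ : ℝ) : ℂ)) := by
      ext i
      have : (s : ℂ) ≠ 0 := by exact_mod_cast hs0.ne'
      push_cast
      field_simp
    rw [h2, ev_smul h.hom, norm_mul, norm_pow, Complex.norm_real, Real.norm_of_nonneg hs0.le] at h1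
    exact le_of_mul_le_mul_left h1 (by positivity)
  have hlim : Filter.Tendsto (fun s : ℝ => ‖ev p (fun i => ((z i).re : ℂ) + Complex.I * (z i).im * ((s⁻¹ : ℝ) : ℂ))‖)
      Filter.atTop (nhds ‖ev p (fun i => ((z i).re : ℂ))‖) := by
    have h1 : Filter.Tendsto (fun s : ℝ => ((s⁻¹ : ℝ) : ℂ)) Filter.atTop (nhds ((0 : ℝ) : ℂ)) :=
      (Complex.continuous_ofReal.tendsto 0).comp tendsto_inv_atTop_zero
    have h2 : Filter.Tendsto (fun s : ℝ => (fun i => ((z i).re : ℂ) + Complex.I * (z i).im * ((s⁻¹ : ℝ) : ℂ)))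
        Filter.atTop (nhds (fun i => ((z i).re : ℂ))) := by
      rw [tendsto_pi_nhds]
      intro i
      have h3 := (h1.const_mul (Complex.I * (z i).im)).const_add ((z i).re : ℂ)
      simpa using h3
    exact ((ev_continuous p).norm.tendsto _).comp h2
  have hfin := le_of_tendsto hlim (Filter.eventually_atTop.2 ⟨1, hbound2⟩)
  rw [ev_ofReal, Complex.norm_real] at hfin
  exact (le_abs_self _).trans hfin

/-! ### univariate lemmas -/

theorem zero_case {F : Polynomial ℂ} {c : ℝ} (h0 : F.eval 0 = 0) (hF : ∀ t : ℝ, 0 < t → c * t ≤ ‖F.eval (t : ℂ)‖) :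
    c ≤ ‖F.coeff 1‖ := by
  obtain ⟨G, rfl⟩ : Polynomial.X ∣ F := by
    rw [Polynomial.X_dvd_iff, Polynomial.coeff_zero_eq_eval_zero, h0]
  have h1 : (Polynomial.X * G).coeff 1 = G.eval 0 := by
    rw [show (1 : ℕ) = 0 + 1 from rfl, Polynomial.coeff_X_mul, Polynomial.coeff_zero_eq_eval_zero]
  rw [h1]
  have h2 : ∀ t : ℝ, 0 < t → c ≤ ‖G.eval (t : ℂ)‖ := by
    intro t ht
    have h3 := hF t ht
    rw [Polynomial.eval_mul, Polynomial.eval_X, norm_mul, Complex.norm_real, Real.norm_of_nonneg ht.le, mul_comm] at h3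
    exact le_of_mul_le_mul_left h3 ht
  have h3 : Filter.Tendsto (fun t : ℝ => ‖G.eval (t : ℂ)‖) (nhdsWithin 0 (Set.Ioi 0)) (nhds ‖G.eval ((0 : ℝ) : ℂ)‖) := by
    have : Continuous (fun t : ℝ => ‖G.eval (t : ℂ)‖) := by fun_prop
    exact (this.tendsto 0).mono_left nhdsWithin_le_nhds
  have h4 := ge_of_tendsto h3 (Filter.eventually_of_mem self_mem_nhdsWithin (fun t ht => h2 t ht))
  simpa using h4

theorem coeff_one_eq {F : Polynomial ℂ} (h0 : F.eval 0 ≠ 0) :
    F.coeff 1 = F.eval 0 * (F.roots.map (fun r => -r⁻¹)).sum := by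
  have hsp : F.Splits := IsAlgClosed.splits F
  have h1 := hsp.eval_derivative_eq_eval_mul_sum h0
  have h2 : F.derivative.eval 0 = F.coeff 1 := by
    rw [← Polynomial.coeff_zero_eq_eval_zero, Polynomial.coeff_derivative]
    simp
  rw [h2] at h1
  rw [h1]
  congr 2
  refine Multiset.map_congr rfl (fun r hr => ?_)
  rw [zero_sub, one_div, neg_inv]

theorem not_const {F : Polynomial ℂ} {c : ℝ} (hc : 0 < c) (hF : ∀ t : ℝ, 0 < t → c * t ≤ ‖F.eval (t : ℂ)‖) :
    F.roots ≠ 0 := by
  intro h
  have hsp : F.Splits := IsAlgClosed.splits F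
  have h1 : ∀ t : ℂ, F.eval t = F.leadingCoeff := by
    intro t
    rw [hsp.eval_eq_prod_roots, h]
    simp
  have h2 := hF ((‖F.leadingCoeff‖ + 1) / c) (by positivity)
  rw [h1] at h2
  field_simp at h2
  linarith

theorem ms_re_pos (R : Multiset ℂ) (hR : ∀ r ∈ R, r.re < 0) (hne : R ≠ 0) :
    0 < ((R.map (fun r => -r⁻¹)).sum).re := by
  induction R using Multiset.induction_on with
  | empty => exact absurd rfl hne
  | cons a R ih =>
    have ha : a.re < 0 := hR a (Multiset.mem_cons_self _ _)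
    have h1 : 0 < (-a⁻¹).re := by
      rw [Complex.neg_re, Complex.inv_re, ← neg_div]
      have : 0 < Complex.normSq a := by
        rw [Complex.normSq_pos]
        rintro rfl
        simp at ha
      exact div_pos (by linarith) this
    rw [Multiset.map_cons, Multiset.sum_cons, Complex.add_re]
    by_cases hR0 : R = 0
    · subst hR0
      simpa using h1
    · have := ih (fun r hr => hR r (Multiset.mem_cons_of_mem hr)) hR0
      linarith

/-- nonvanishing of the first coefficient -/
theorem coeff_ne {F : Polynomial ℂ} {c : ℝ} (hc : 0 < c) (hr : ∀ r, F.eval r = 0 → r.re < 0 ∨ r = 0)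
    (hF : ∀ t : ℝ, 0 < t → c * t ≤ ‖F.eval (t : ℂ)‖) : F.coeff 1 ≠ 0 := by
  by_cases h0 : F.eval 0 = 0
  · have := zero_case h0 hF
    intro h
    rw [h, norm_zero] at this
    linarith
  · rw [coeff_one_eq h0]
    refine mul_ne_zero h0 ?_
    intro h
    have h1 := ms_re_pos F.roots ?_ (not_const hc hF)
    · rw [h] at h1
      simp at h1
    · intro r hr'
      have hr0 : F.eval r = 0 := (Polynomial.mem_roots'.1 hr').2
      rcases hr r hr0 with h2 | h2
      · exact h2
      · subst h2
        exact absurd hr0 h0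

theorem ms_exp (R : Multiset ℂ) (hR : ∀ r ∈ R, r.im = 0 ∧ r.re < 0) :
    (∀ t : ℝ, 0 ≤ t → ‖(R.map (fun r => (1 : ℂ) - t / r)).prod‖ ≤ Real.exp (t * ((R.map (fun r => -r⁻¹)).sum).re)) ∧
      ((R.map (fun r => -r⁻¹)).sum).im = 0 ∧ 0 ≤ ((R.map (fun r => -r⁻¹)).sum).re := by
  induction R using Multiset.induction_on with
  | empty => simp
  | cons a R ih =>
    obtain ⟨ha, ha'⟩ : a.im = 0 ∧ a.re < 0 := hR a (Multiset.mem_cons_self _ _)
    obtain ⟨h1, h2, h3⟩ := ih (fun r hr => hR r (Multiset.mem_cons_of_mem hr))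
    have haa : a = ((a.re : ℝ) : ℂ) := Complex.ext rfl (by simpa using ha)
    have hinv : -a⁻¹ = ((-(a.re)⁻¹ : ℝ) : ℂ) := by
      conv_lhs => rw [haa]
      push_cast
      rfl
    have hpos : 0 < -(a.re)⁻¹ := by
      have := inv_lt_zero.2 ha'
      linarith
    refine ⟨?_, ?_, ?_⟩
    · intro t ht
      have h4 : ‖(1 : ℂ) - t / a‖ ≤ Real.exp (t * (-(a.re)⁻¹)) := by
        have h5 : (1 : ℂ) - t / a = ((1 + t * (-(a.re)⁻¹) : ℝ) : ℂ) := by
          rw [div_eq_mul_inv]
          have : a⁻¹ = -((-(a.re)⁻¹ : ℝ) : ℂ) := by rw [← hinv, neg_neg]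
          rw [this]
          push_cast
          ring
        rw [h5, Complex.norm_real, Real.norm_of_nonneg (by positivity), add_comm]
        exact Real.add_one_le_exp _
      rw [Multiset.map_cons, Multiset.prod_cons, norm_mul, Multiset.map_cons, Multiset.sum_cons, Complex.add_re,
        mul_add, Real.exp_add, hinv, Complex.ofReal_re]
      exact mul_le_mul h4 (h1 t ht) (norm_nonneg _) (Real.exp_pos _).le
    · rw [Multiset.map_cons, Multiset.sum_cons, Complex.add_im, h2, hinv, Complex.ofReal_im, add_zero]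
    · rw [Multiset.map_cons, Multiset.sum_cons, Complex.add_re, hinv, Complex.ofReal_re]
      linarith

/-- the univariate capacity inequality -/
theorem coeff_ge {F : Polynomial ℂ} {c : ℝ} (hc : 0 < c) (hr : ∀ r, F.eval r = 0 → r.im = 0 ∧ r.re ≤ 0)
    (hF : ∀ t : ℝ, 0 < t → c * t ≤ ‖F.eval (t : ℂ)‖) : c * Real.exp (-1) ≤ ‖F.coeff 1‖ := by
  by_cases h0 : F.eval 0 = 0
  · refine le_trans ?_ (zero_case h0 hF)
    have : Real.exp (-1) ≤ 1 := Real.exp_le_one_iff.2 (by norm_num)
    nlinarith
  · have hroots : ∀ r ∈ F.roots, r.im = 0 ∧ r.re < 0 := by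
      intro r hr'
      have hr0 : F.eval r = 0 := (Polynomial.mem_roots'.1 hr').2
      obtain ⟨h1, h2⟩ := hr r hr0
      refine ⟨h1, lt_of_le_of_ne h2 ?_⟩
      intro h3
      have : r = 0 := Complex.ext h3 h1
      subst this
      exact h0 hr0
    obtain ⟨h1, h2, h3⟩ := ms_exp F.roots hroots
    have hpos := ms_re_pos F.roots (fun r hr' => (hroots r hr').2) (not_const hc hF)
    set S := (F.roots.map (fun r => -r⁻¹)).sum with hS
    have hsp : F.Splits := IsAlgClosed.splits F
    have hev : ∀ t : ℝ, F.eval (t : ℂ) = F.eval 0 * (F.roots.map (fun r => (1 : ℂ) - t / r)).prod := by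
      intro t
      rw [hsp.eval_eq_prod_roots, hsp.eval_eq_prod_roots, mul_assoc, ← Multiset.prod_map_mul]
      congr 2
      refine Multiset.map_congr rfl (fun r hr' => ?_)
      have hr0 : r ≠ 0 := by
        rintro rfl
        have := (hroots 0 hr').2
        simp at this
      field_simp
      ring
    have hn : ‖F.coeff 1‖ = ‖F.eval 0‖ * S.re := by
      rw [coeff_one_eq h0, ← hS, norm_mul]
      have : S = ((S.re : ℝ) : ℂ) := Complex.ext rfl (by simpa using h2)
      rw [this, Complex.norm_real, Real.norm_of_nonneg h3, Complex.ofReal_re]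
    have h4 := hF (1 / S.re) (by positivity)
    have h5 : ‖F.eval ((1 / S.re : ℝ) : ℂ)‖ ≤ ‖F.eval 0‖ * Real.exp 1 := by
      rw [hev, norm_mul]
      have h6 := h1 (1 / S.re) (by positivity)
      rw [one_div_mul_cancel hpos.ne'] at h6
      gcongr
    have h6 : c * (1 / S.re) ≤ ‖F.eval 0‖ * Real.exp 1 := h4.trans h5
    have h7 : c ≤ ‖F.eval 0‖ * Real.exp 1 * S.re := by
      have := mul_le_mul_of_nonneg_right h6 hpos.le
      rwa [mul_assoc, one_div_mul_cancel hpos.ne', mul_one] at this
    rw [hn]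
    calc c * Real.exp (-1) ≤ (‖F.eval 0‖ * Real.exp 1 * S.re) * Real.exp (-1) := by
          have := Real.exp_pos (-1)
          gcongr
      _ = ‖F.eval 0‖ * S.re * (Real.exp 1 * Real.exp (-1)) := by ring
      _ = _ := by rw [← Real.exp_add]; simp

/-! ### the induction -/

theorem eval_nonneg {n : ℕ} {p : MvPolynomial (Fin n) ℝ} (h : ∀ m, 0 ≤ p.coeff m) {x : Fin n → ℝ}
    (hx : ∀ i, 0 ≤ x i) : 0 ≤ eval x p := by
  rw [eval_eq]
  exact Finset.sum_nonneg (fun d _ => mul_nonneg (h d) (Finset.prod_nonneg (fun i _ => pow_nonneg (hx i) _)))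

theorem rot {n N : ℕ} {p : MvPolynomial (Fin n) ℝ} (hp : p.IsHomogeneous N)
    (hs : ∀ z : Fin n → ℂ, (∀ i, 0 < (z i).re) → ev p z ≠ 0) (z : Fin n → ℂ) (w : ℂ)
    (h : ∀ i, 0 < (w * z i).re) : ev p z ≠ 0 := by
  intro h0
  have h1 := ev_smul hp w z
  rw [h0, mul_zero] at h1
  exact hs _ h h1

theorem Good.step {n : ℕ} {p : MvPolynomial (Fin (n + 1)) ℝ} {c : ℝ} (hc : 0 < c) (h : Good (n + 1) p c) :
    Good n ((finSuccEquiv ℝ n p).coeff 1) (c * Real.exp (-1)) := by
  have hnn : ∀ m, 0 ≤ ((finSuccEquiv ℝ n p).coeff 1).coeff m := by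
    intro m
    rw [finSuccEquiv_coeff_coeff]
    exact h.nonneg _
  have hlow : ∀ y : Fin n → ℂ, (∀ i, 0 < (y i).re) → ∀ t : ℝ, 0 < t →
      (c * ∏ i, (y i).re) * t ≤
        ‖(Polynomial.map (eval y) (finSuccEquiv ℂ n (map (algebraMap ℝ ℂ) p))).eval (t : ℂ)‖ := by
    intro y hy t ht
    rw [← ev_cons]
    have hz : ∀ i, 0 < ((Fin.cons (t : ℂ) y : Fin (n + 1) → ℂ) i).re := by
      intro i
      refine Fin.cases ?_ ?_ i
      · simpa using ht
      · intro j
        simpa using hy j
    refine le_trans ?_ (re_le h _ hz)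
    refine le_trans (le_of_eq ?_) (h.cap _ hz)
    rw [Fin.prod_univ_succ]
    simp only [Fin.cons_zero, Fin.cons_succ, Complex.ofReal_re]
    ring
  refine ⟨hnn, h.hom.finSuccEquiv_coeff_isHomogeneous 1 n (by omega), ?_, ?_⟩
  · intro y hy
    rw [← ev_coeff]
    have hP : 0 < ∏ i, (y i).re := Finset.prod_pos (fun i _ => hy i)
    refine coeff_ne (c := c * ∏ i, (y i).re) (by positivity) ?_ (hlow y hy)
    intro r hr
    rw [← ev_cons] at hr
    by_contra hcon
    push Not at hcon
    obtain ⟨h1, h2⟩ := hcon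
    rcases h1.lt_or_eq with h3 | h3
    · refine h.stab _ ?_ hr
      intro i
      refine Fin.cases ?_ ?_ i
      · simpa using h3
      · intro j
        simpa using hy j
    · have him : r.im ≠ 0 := by
        intro h4
        exact h2 (Complex.ext h3.symm h4)
      -- a small rotation
      have hev1 : ∀ᶠ δ : ℝ in nhds 0, ∀ j, 0 < (y j).re - δ * (y j).im := by
        rw [Filter.eventually_all]
        intro j
        have hcont : Continuous (fun δ : ℝ => (y j).re - δ * (y j).im) := by fun_prop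
        have h5 := (hcont.tendsto 0).eventually (lt_mem_nhds (show (0 : ℝ) < (y j).re - 0 * (y j).im by simpa using hy j))
        exact h5
      rw [Metric.eventually_nhds_iff] at hev1
      obtain ⟨ε, hε, hball⟩ := hev1
      set δ : ℝ := -(ε / 2) * (SignType.sign r.im : ℝ) with hδ
      have hsgn : (SignType.sign r.im : ℝ) * r.im = |r.im| := sign_mul_self r.im
      have habs : |(SignType.sign r.im : ℝ)| ≤ 1 := by
        rcases lt_trichotomy r.im 0 with h6 | h6 | h6
        · rw [sign_neg h6]; simp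
        · exact absurd h6 him
        · rw [sign_pos h6]; simp
      have hδs : dist δ 0 < ε := by
        rw [Real.dist_eq, sub_zero, hδ, abs_mul, abs_neg, abs_of_pos (by positivity : 0 < ε / 2)]
        nlinarith
      have hδr : 0 < - δ * r.im := by
        rw [hδ]
        have : 0 < |r.im| := abs_pos.2 him
        calc 0 < ε / 2 * |r.im| := by positivity
          _ = _ := by rw [← hsgn]; ring
      refine rot h.hom h.stab _ ((1 : ℂ) + δ * Complex.I) ?_ hr
      intro i
      refine Fin.cases ?_ ?_ i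
      · simp only [Fin.cons_zero, Complex.mul_re, Complex.add_re, Complex.one_re, Complex.ofReal_re,
          Complex.I_re, Complex.ofReal_im, Complex.I_im, Complex.add_im, Complex.one_im, Complex.mul_im]
        rw [← h3]
        linarith
      · intro j
        simp only [Fin.cons_succ, Complex.mul_re, Complex.add_re, Complex.one_re, Complex.ofReal_re,
          Complex.I_re, Complex.ofReal_im, Complex.I_im, Complex.add_im, Complex.one_im, Complex.mul_im]
        have := hball hδs j
        linarith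
  · intro x hx
    have hy : ∀ i, 0 < ((fun i => (x i : ℂ)) i).re := fun i => by simpa using hx i
    have hP : 0 < ∏ i, x i := Finset.prod_pos (fun i _ => hx i)
    have h1 := coeff_ge (F := Polynomial.map (eval (fun i => (x i : ℂ))) (finSuccEquiv ℂ n (map (algebraMap ℝ ℂ) p)))
      (c := c * ∏ i, x i) (by positivity) ?_ (by simpa using hlow _ hy)
    · rw [ev_coeff, ev_ofReal, Complex.norm_real, Real.norm_of_nonneg (eval_nonneg hnn (fun i => (hx i).le))] at h1
      refine le_trans (le_of_eq ?_) h1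
      ring
    · intro r hr
      rw [← ev_cons] at hr
      by_contra hcon
      by_cases h2 : 0 < r.re
      · refine h.stab _ ?_ hr
        intro i
        refine Fin.cases ?_ ?_ i
        · simpa using h2
        · intro j
          simpa using hx j
      · have him : r.im ≠ 0 := fun h4 => hcon ⟨h4, not_lt.1 h2⟩
        refine rot h.hom h.stab _ ((1 : ℂ) + (((r.re - 1) / r.im : ℝ) : ℂ) * Complex.I) ?_ hr
        intro i
        refine Fin.cases ?_ ?_ i
        · simp only [Fin.cons_zero, Complex.mul_re, Complex.add_re, Complex.one_re, Complex.ofReal_re,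
            Complex.I_re, Complex.ofReal_im, Complex.I_im, Complex.add_im, Complex.one_im, Complex.mul_im]
          have : (r.re - 1) / r.im * r.im = r.re - 1 := div_mul_cancel₀ _ him
          nlinarith
        · intro j
          simp only [Fin.cons_succ, Complex.mul_re, Complex.add_re, Complex.one_re, Complex.ofReal_re,
            Complex.I_re, Complex.ofReal_im, Complex.I_im, Complex.add_im, Complex.one_im, Complex.mul_im]
          have := hx j
          nlinarith

/-- Gurvits' inequality with the constant `e^{-n}` -/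
theorem gurvits {n : ℕ} (p : MvPolynomial (Fin n) ℝ) (c : ℝ) (hc : 0 < c) (h : Good n p c) :
    c * Real.exp (-(n : ℝ)) ≤ p.coeff (Finsupp.equivFunOnFinite.symm (fun _ => 1)) := by
  induction n generalizing c with
  | zero =>
    have h1 := h.cap (fun _ => 1) (fun i => i.elim0)
    rw [eval_eq'] at h1
    have h2 : ∑ d ∈ p.support, coeff d p * ∏ i : Fin 0, (1 : ℝ) ^ d i ≤
        p.coeff (Finsupp.equivFunOnFinite.symm (fun _ => 1)) := by
      have h3 : ∀ d : Fin 0 →₀ ℕ, d = Finsupp.equivFunOnFinite.symm (fun _ => 1) := fun d => Subsingleton.elim _ _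
      calc ∑ d ∈ p.support, coeff d p * ∏ i : Fin 0, (1 : ℝ) ^ d i
          ≤ ∑ d ∈ {(Finsupp.equivFunOnFinite.symm (fun _ => 1) : Fin 0 →₀ ℕ)}, coeff d p * ∏ i : Fin 0, (1 : ℝ) ^ d i := by
            refine Finset.sum_le_sum_of_subset_of_nonneg ?_ ?_
            · intro d _
              rw [Finset.mem_singleton]
              exact h3 d
            · intro d _ _
              have := h.nonneg d
              simpa using this
        _ = _ := by simp
    simp only [Finset.univ_eq_empty, Finset.prod_empty, mul_one] at h1 h2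
    simp only [Nat.cast_zero, neg_zero, Real.exp_zero, mul_one]
    linarith
  | succ n ih =>
    have h1 := ih _ _ (by positivity) (h.step hc)
    rw [finSuccEquiv_coeff_coeff] at h1
    have h2 : Finsupp.cons 1 (Finsupp.equivFunOnFinite.symm (fun _ : Fin n => 1)) =
        (Finsupp.equivFunOnFinite.symm (fun _ => 1) : Fin (n + 1) →₀ ℕ) := by
      ext i
      refine Fin.cases ?_ ?_ i
      · simp
      · intro j
        simp
    rw [h2] at h1
    refine le_trans (le_of_eq ?_) h1
    rw [mul_assoc, ← Real.exp_add]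
    congr 2
    push_cast
    ring

end Pool.Agent.Lib.MP_688fd0_co.LIN.H91
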