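import Pool.Agent.Lib.MP_688fd0_co.LIN.H91.Cap

/-!
A `d`-regular digraph has a cover by few cycles: the number of permutations supported on it is at least `(d/e)^n`
(Gurvits), at most `2^n d^(n-j)` of them have `j` or more cycles.
-/

set_option autoImplicit false

namespace Pool.Agent.Lib.MP_688fd0_co.LIN.H91

open Classical
open MvPolynomial

section
variable {V : Type*} [Fintype V]

/-- the generating polynomial of a digraph -/
noncomputable def gp (N : V → Finset V) : MvPolynomial (Fin (Fintype.card V)) ℝ :=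
  ∏ v : V, ∑ w ∈ N v, X (Fintype.equivFin V w)

theorem gp_expand (N : V → Finset V) : gp N = ∑ φ ∈ Fintype.piFinset N,
    monomial (∑ v : V, Finsupp.single (Fintype.equivFin V (φ v)) 1) (1 : ℝ) := by
  unfold gp
  rw [Finset.prod_univ_sum]
  refine Finset.sum_congr rfl (fun φ _ => ?_)
  rw [monomial_sum_one]
  exact Finset.prod_congr rfl (fun v _ => rfl)

theorem gp_eval (N : V → Finset V) (x : Fin (Fintype.card V) → ℝ) :
    eval x (gp N) = ∏ v : V, ∑ w ∈ N v, x (Fintype.equivFin V w) := by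
  unfold gp
  rw [map_prod]
  refine Finset.prod_congr rfl (fun v _ => ?_)
  rw [map_sum]
  simp

theorem gp_ev (N : V → Finset V) (z : Fin (Fintype.card V) → ℂ) :
    ev (gp N) z = ∏ v : V, ∑ w ∈ N v, z (Fintype.equivFin V w) := by
  unfold gp ev
  rw [map_prod, map_prod]
  refine Finset.prod_congr rfl (fun v _ => ?_)
  rw [map_sum, map_sum]
  simp

theorem gp_good (N : V → Finset V) (d : ℕ) (hd : 1 ≤ d) (hrow : ∀ v, (N v).card = d)
    (hcol : ∀ w, (Finset.univ.filter (fun v => w ∈ N v)).card = d) :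
    Good (Fintype.card V) (gp N) ((d : ℝ) ^ Fintype.card V) := by
  have hdR : (0 : ℝ) < d := by exact_mod_cast hd
  refine ⟨?_, ?_, ?_, ?_⟩
  · intro m
    rw [gp_expand, coeff_sum]
    refine Finset.sum_nonneg (fun φ _ => ?_)
    rw [coeff_monomial]
    split_ifs <;> norm_num
  · have h1 : (gp N).IsHomogeneous (∑ _v : V, 1) := by
      unfold gp
      refine IsHomogeneous.prod _ _ _ (fun v _ => ?_)
      exact IsHomogeneous.sum _ _ _ (fun w _ => isHomogeneous_X _ _)
    simpa using h1
  · intro z hz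
    rw [gp_ev, Finset.prod_ne_zero_iff]
    intro v _ h0
    have h1 : 0 < (∑ w ∈ N v, z (Fintype.equivFin V w)).re := by
      rw [Complex.re_sum]
      refine Finset.sum_pos (fun w _ => hz _) ?_
      rw [← Finset.card_pos, hrow v]
      exact hd
    rw [h0] at h1
    simp at h1
  · intro x hx
    rw [gp_eval]
    have h1 : ∀ v : V, (d : ℝ) * ∏ w ∈ N v, x (Fintype.equivFin V w) ^ ((d : ℝ)⁻¹) ≤
        ∑ w ∈ N v, x (Fintype.equivFin V w) := by
      intro v
      have h2 := Real.geom_mean_le_arith_mean_weighted (N v) (fun _ => (d : ℝ)⁻¹)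
        (fun w => x (Fintype.equivFin V w)) (fun _ _ => by positivity)
        (by rw [Finset.sum_const, hrow v, nsmul_eq_mul]; exact mul_inv_cancel₀ hdR.ne')
        (fun w _ => (hx _).le)
      rw [← Finset.mul_sum] at h2
      calc (d : ℝ) * ∏ w ∈ N v, x (Fintype.equivFin V w) ^ ((d : ℝ)⁻¹)
          ≤ (d : ℝ) * ((d : ℝ)⁻¹ * ∑ w ∈ N v, x (Fintype.equivFin V w)) := by gcongr
        _ = _ := by rw [← mul_assoc, mul_inv_cancel₀ hdR.ne', one_mul]
    have h3 : ∏ v : V, ((d : ℝ) * ∏ w ∈ N v, x (Fintype.equivFin V w) ^ ((d : ℝ)⁻¹)) =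
        (d : ℝ) ^ Fintype.card V * ∏ i, x i := by
      rw [Finset.prod_mul_distrib, Finset.prod_const, Finset.card_univ]
      congr 1
      rw [Finset.prod_comm' (s' := fun w => Finset.univ.filter (fun v => w ∈ N v)) (t' := Finset.univ)
        (by intro v w; simp)]
      rw [← Equiv.prod_comp (Fintype.equivFin V) x]
      refine Finset.prod_congr rfl (fun w _ => ?_)
      rw [Finset.prod_const, hcol w, ← Real.rpow_natCast, ← Real.rpow_mul (hx _).le, inv_mul_cancel₀ hdR.ne',
        Real.rpow_one]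
    rw [← h3]
    refine Finset.prod_le_prod (fun v _ => ?_) (fun v _ => h1 v)
    have : 0 ≤ ∏ w ∈ N v, x (Fintype.equivFin V w) ^ ((d : ℝ)⁻¹) :=
      Finset.prod_nonneg (fun w _ => Real.rpow_nonneg (hx _).le _)
    positivity

/-- the permutations supported on `N` -/
noncomputable def pN (N : V → Finset V) : Finset (Equiv.Perm V) := Finset.univ.filter (fun σ => ∀ v, σ v ∈ N v)

theorem coeff_le (N : V → Finset V) :
    (gp N).coeff (Finsupp.equivFunOnFinite.symm (fun _ => 1)) ≤ ((pN N).card : ℝ) := by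
  rw [gp_expand, coeff_sum]
  have h1 : ∀ φ ∈ Fintype.piFinset N, coeff (Finsupp.equivFunOnFinite.symm (fun _ => 1))
      (monomial (∑ v : V, Finsupp.single (Fintype.equivFin V (φ v)) 1) (1 : ℝ)) =
      if (∑ v : V, Finsupp.single (Fintype.equivFin V (φ v)) 1) =
        (Finsupp.equivFunOnFinite.symm (fun _ => 1) : Fin (Fintype.card V) →₀ ℕ) then 1 else 0 := by
    intro φ _
    rw [coeff_monomial]
  rw [Finset.sum_congr rfl h1, Finset.sum_boole]
  norm_cast
  have hbij : ∀ φ : V → V, (∑ v : V, Finsupp.single (Fintype.equivFin V (φ v)) 1) =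
        (Finsupp.equivFunOnFinite.symm (fun _ => 1) : Fin (Fintype.card V) →₀ ℕ) → Function.Bijective φ := by
    intro φ hφ
    rw [← Finite.surjective_iff_bijective]
    intro w
    have h2 := congrArg (fun f => f (Fintype.equivFin V w)) hφ
    simp only [Finsupp.coe_finsetSum, Finset.sum_apply, Finsupp.equivFunOnFinite_symm_apply_apply] at h2
    have h3 : (∑ v : V, (Finsupp.single (Fintype.equivFin V (φ v)) 1 : Fin (Fintype.card V) →₀ ℕ)
        (Fintype.equivFin V w)) ≠ 0 := by
      rw [h2]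
      norm_num
    obtain ⟨v, _, hv⟩ := Finset.exists_ne_zero_of_sum_ne_zero h3
    refine ⟨v, ?_⟩
    by_contra hne
    apply hv
    rw [Finsupp.single_apply, if_neg]
    intro h4
    exact hne ((Fintype.equivFin V).injective h4)
  refine Finset.card_le_card_of_injOn
    (fun φ => if h : Function.Bijective φ then Equiv.ofBijective φ h else 1) ?_ ?_
  · intro φ hφ
    rw [Finset.mem_coe, Finset.mem_filter] at hφ
    have hb := hbij φ hφ.2
    simp only [dif_pos hb, pN, Finset.coe_filter, Finset.mem_univ, true_and, Set.mem_ofPred_eq, Equiv.ofBijective_apply]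
    exact fun v => Fintype.mem_piFinset.1 hφ.1 v
  · intro φ hφ ψ hψ heq
    rw [Finset.mem_coe, Finset.mem_filter] at hφ hψ
    simp only [dif_pos (hbij φ hφ.2), dif_pos (hbij ψ hψ.2)] at heq
    ext v
    have := congrArg (fun f : Equiv.Perm V => f v) heq
    simpa using this

/-- lower bound for the number of permutations supported on a `d`-regular digraph -/
theorem pN_lower (N : V → Finset V) (d : ℕ) (hd : 1 ≤ d) (hrow : ∀ v, (N v).card = d)
    (hcol : ∀ w, (Finset.univ.filter (fun v => w ∈ N v)).card = d) :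
    (d : ℝ) ^ Fintype.card V * Real.exp (-(Fintype.card V : ℝ)) ≤ ((pN N).card : ℝ) := by
  have hdR : (0 : ℝ) < d := by exact_mod_cast hd
  exact (gurvits _ _ (by positivity) (gp_good N d hd hrow hcol)).trans (coeff_le N)

/-- no two elements of `Z` in the same cycle -/
def Tr (σ : Equiv.Perm V) (Z : Finset V) : Prop := ∀ a ∈ Z, ∀ b ∈ Z, a ≠ b → ¬ σ.SameCycle a b

omit [Fintype V] in
theorem tr_mono {σ : Equiv.Perm V} {Z Z' : Finset V} (h : Z' ⊆ Z) (hZ : Tr σ Z) : Tr σ Z' :=
  fun a ha b hb hab => hZ a (h ha) b (h hb) hab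

theorem tr_inj {Z : Finset V} {σ τ : Equiv.Perm V} (hσ : Tr σ Z) (hτ : Tr τ Z) (h : ∀ v ∉ Z, σ v = τ v) : σ = τ := by
  ext z
  by_cases hz : z ∈ Z
  swap
  · exact h z hz
  -- the path from σ z to z
  obtain ⟨k, hk1, hk2⟩ : ∃ k : ℕ, 0 < k ∧ (σ ^ k) z = z := by
    refine ⟨orderOf σ, orderOf_pos σ, ?_⟩
    rw [pow_orderOf_eq_one]
    rfl
  have hex : ∃ k : ℕ, 0 < k ∧ (σ ^ k) z = z := ⟨k, hk1, hk2⟩
  set m := Nat.find hex with hm
  obtain ⟨hm0, hmz⟩ := Nat.find_spec hex
  rw [← hm] at hm0 hmz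
  have hmin : ∀ i, 0 < i → i < m → (σ ^ i) z ∉ Z := by
    intro i hi him hin
    have h1 : (σ ^ i) z ≠ z := fun h2 => Nat.find_min hex him ⟨hi, h2⟩
    exact hσ _ hin z hz h1 (Equiv.Perm.SameCycle.symm ⟨i, by simp⟩)
  have hagree : ∀ i, i + 1 ≤ m → (τ ^ i) (σ z) = (σ ^ (i + 1)) z := by
    intro i
    induction i with
    | zero => intro _; simp
    | succ i ih =>
      intro hi
      rw [pow_succ', Equiv.Perm.mul_apply, ih (by omega), ← h _ (hmin (i + 1) (by omega) (by omega)),
        pow_succ' σ (i + 1), Equiv.Perm.mul_apply]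
  have h1 : (τ ^ (m - 1)) (σ z) = z := by
    rw [hagree (m - 1) (by omega), Nat.sub_add_cancel hm0, hmz]
  set u := τ.symm (σ z) with hu
  have hτu : τ u = σ z := by rw [hu]; simp
  have huZ : u ∈ Z := by
    by_contra huZ
    have h2 := h u huZ
    rw [hτu] at h2
    have h3 := σ.injective h2
    rw [h3] at huZ
    exact huZ hz
  have h4 : u = z := by
    by_contra hne
    refine hτ u huZ z hz hne ?_
    refine ⟨((m - 1) + 1 : ℕ), ?_⟩
    rw [zpow_natCast, pow_succ, Equiv.Perm.mul_apply, hτu, h1]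
  rw [← hτu, h4]

theorem fiber_card (N : V → Finset V) (d : ℕ) (hrow : ∀ v, (N v).card = d) (Z : Finset V) :
    ((pN N).filter (fun σ => Tr σ Z)).card ≤ d ^ (Fintype.card V - Z.card) := by
  have h1 : (Fintype.piFinset (fun v => if v ∈ Z then ({v} : Finset V) else N v)).card =
      d ^ (Fintype.card V - Z.card) := by
    rw [Fintype.card_piFinset]
    have h2 : ∀ v : V, (if v ∈ Z then ({v} : Finset V) else N v).card = if v ∈ Z then 1 else d := by
      intro v
      split_ifs
      · simp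
      · exact hrow v
    simp only [h2]
    rw [Finset.prod_ite, Finset.prod_const_one, one_mul, Finset.prod_const]
    congr 1
    have h3 : Finset.univ.filter (fun v => v ∉ Z) = Zᶜ := by ext v; simp
    rw [h3, Finset.card_compl]
  rw [← h1]
  refine Finset.card_le_card_of_injOn (fun σ v => if v ∈ Z then v else σ v) ?_ ?_
  · intro σ hσ
    rw [Finset.mem_coe, Finset.mem_filter, pN, Finset.mem_filter] at hσ
    rw [Finset.mem_coe, Fintype.mem_piFinset]
    intro v
    by_cases hv : v ∈ Z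
    · simp [hv]
    · simp only [hv, if_false]
      exact hσ.1.2 v
  · intro σ hσ τ hτ heq
    rw [Finset.mem_coe, Finset.mem_filter] at hσ hτ
    refine tr_inj hσ.2 hτ.2 (fun v hv => ?_)
    have := congrFun heq v
    simpa [hv] using this

/-- a permutation supported on `N` with fewer than `j` cycles -/
theorem few_cycles (N : V → Finset V) (d : ℕ) (hd : 1 ≤ d) (hrow : ∀ v, (N v).card = d)
    (hcol : ∀ w, (Finset.univ.filter (fun v => w ∈ N v)).card = d) (j : ℕ)
    (hj : (2 * Real.exp 1) ^ Fintype.card V < (d : ℝ) ^ j) :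
    ∃ σ : Equiv.Perm V, (∀ v, σ v ∈ N v) ∧ ∀ Z : Finset V, Tr σ Z → Z.card < j := by
  by_contra hcon
  push Not at hcon
  have hdR : (0 : ℝ) < d := by exact_mod_cast hd
  have h1 : pN N ⊆ (Finset.powersetCard j (Finset.univ : Finset V)).biUnion
      (fun Z => (pN N).filter (fun σ => Tr σ Z)) := by
    intro σ hσ
    obtain ⟨Z, hZ, hZj⟩ := hcon σ (by simpa [pN] using hσ)
    obtain ⟨Z', hZ', hc⟩ := Finset.exists_subset_card_eq hZj
    rw [Finset.mem_biUnion]
    refine ⟨Z', Finset.mem_powersetCard.2 ⟨Finset.subset_univ _, hc⟩, Finset.mem_filter.2 ⟨hσ, tr_mono hZ' hZ⟩⟩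
  have h2 : (pN N).card ≤ 2 ^ Fintype.card V * d ^ (Fintype.card V - j) := by
    refine (Finset.card_le_card h1).trans (Finset.card_biUnion_le.trans ?_)
    have h3 : ∀ Z ∈ Finset.powersetCard j (Finset.univ : Finset V),
        ((pN N).filter (fun σ => Tr σ Z)).card ≤ d ^ (Fintype.card V - j) := by
      intro Z hZ
      rw [← (Finset.mem_powersetCard.1 hZ).2]
      exact fiber_card N d hrow Z
    refine (Finset.sum_le_card_nsmul _ _ _ h3).trans ?_
    rw [smul_eq_mul, Finset.card_powersetCard, Finset.card_univ]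
    exact Nat.mul_le_mul_right _ (Nat.choose_le_two_pow _ _)
  have hlow := pN_lower N d hd hrow hcol
  have hjn : j ≤ Fintype.card V := by
    by_contra hlt
    have h4 : Finset.powersetCard j (Finset.univ : Finset V) = ∅ := by
      rw [Finset.powersetCard_eq_empty, Finset.card_univ]
      omega
    rw [h4, Finset.biUnion_empty, Finset.subset_empty] at h1
    rw [h1, Finset.card_empty, Nat.cast_zero] at hlow
    have : 0 < (d : ℝ) ^ Fintype.card V * Real.exp (-(Fintype.card V : ℝ)) := by positivity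
    linarith
  have h5 : (d : ℝ) ^ Fintype.card V * Real.exp (-(Fintype.card V : ℝ)) ≤
      2 ^ Fintype.card V * (d : ℝ) ^ (Fintype.card V - j) := by
    refine hlow.trans ?_
    exact_mod_cast h2
  have h6 : (d : ℝ) ^ Fintype.card V = (d : ℝ) ^ (Fintype.card V - j) * (d : ℝ) ^ j := by
    rw [← pow_add, Nat.sub_add_cancel hjn]
  rw [h6, Real.exp_neg] at h5
  have h7 : (0 : ℝ) < (d : ℝ) ^ (Fintype.card V - j) := by positivity
  have h8 : (0 : ℝ) < Real.exp (Fintype.card V : ℝ) := Real.exp_pos _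
  have h9 : (d : ℝ) ^ j * (Real.exp (Fintype.card V : ℝ))⁻¹ ≤ 2 ^ Fintype.card V := by
    have : (d : ℝ) ^ (Fintype.card V - j) * ((d : ℝ) ^ j * (Real.exp (Fintype.card V : ℝ))⁻¹) ≤
        (d : ℝ) ^ (Fintype.card V - j) * 2 ^ Fintype.card V := by
      calc _ = (d : ℝ) ^ (Fintype.card V - j) * (d : ℝ) ^ j * (Real.exp (Fintype.card V : ℝ))⁻¹ := by ring
        _ ≤ _ := by rw [mul_comm _ ((2 : ℝ) ^ Fintype.card V)]; exact h5
    exact le_of_mul_le_mul_left this h7
  rw [← div_eq_mul_inv, div_le_iff₀ h8] at h9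
  have h10 : Real.exp (Fintype.card V : ℝ) = Real.exp 1 ^ Fintype.card V := by
    rw [← Real.exp_nat_mul, mul_one]
  rw [h10, ← mul_pow] at h9
  linarith

end

end Pool.Agent.Lib.MP_688fd0_co.LIN.H91
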